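import Pool.Agent.TH214.Q.GrMain
import Pool.Agent.W558.WT.Asm3
import Pool.Agent.W558.Var

/-!
MP_b525bf_ag: resolution of singularities for the quotients of products of surfaces of
characteristic `p` by finite diagonalizable group schemes `D`, if the order of the image of `D` in the
automorphism group scheme of each factor is not divisible by `p ^ 2`; for example the quotients
`(X_1 × ... × X_n) / μ_N` by the diagonal action of `μ_N`, `N = p * m`, `m` prime to `p`. All
even dimensions. In terms of algebras: `D = Spec k[Λ]` for a finite abelian group `Λ`, the
coordinate rings `A_i` of the `X_i` are `Λ`-graded, and the coordinate ring of the quotient is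
the part of degree zero of the tensor product of the `A_i`.

The proof: let `F_i` be the field of fractions of degree zero of `A_i`, and `L` the
function field of the product of the `X_i / D`. (1) The function field of the quotient is
generated over `L` by products of homogeneous elements of the `A_i` of total degree zero; their
`m`-th powers, resp. `p`-th powers, are products `∏ g_i` of functions `g_i ∈ F_i`, where for the
`p`-th roots the `g_i` are powers of one function `f_i ∈ F_i`, which is not a `p`-th power. (2) The
surfaces `X_i / D` are blown up in points until the `f_i` have Giraud's normal form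
`a ^ p + x ^ n * h` and all `g_i` are locally monomials (starting library). (3) NEW: the Kummer
extension of `L` is embedded in the product of a model of `L` and a torus, with the equations
`Y ^ m = ∏ g_i`; on a suitable toroidal blowup of this product the strict transforms of the
equations define a smooth subscheme with normal crossings with the boundary, and the joint normal
form of the `f_i` is preserved: relative version, over an arbitrary model with a joint normal
form, of our theorem on schön subvarieties (MP_b525bf_ag.SchonInseparable). (4) The tower of
`p`-th roots is constructed by the theorem of helper188 (MP_b525bf_ag.InseparableTowers).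

helper214; built on work of helper188 (TH188/WQ, with helpers 715, 971, 558, 90, 153) and on the
library of the starting files (helper558's team: helpers 578, 349, 191, 85, 64, 924, 52, 216, 177,
462, 932, 411, 499, 337, 372, 193, 150, 978, 930, 327, 376, 32, 902, 417, 135, 348, 410, 435 and
others).
-/

set_option autoImplicit false

open AlgebraicGeometry CategoryTheory Pool.Agent.W558

universe u

namespace Pool.Agent.Results.MP_b525bf_ag.DiagonalizableQuotients

/-- The algebra `B` with the homomorphisms `j i : A i → B` is the tensor product over `k` of the
algebras `A i`: homomorphisms `f i` from the `A i` to a commutative `k`-algebra `S` correspond to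
homomorphisms `g` from `B` to `S`. So `Spec B` is the product of the `Spec (A i)` over `k`. -/
def IsTensorProduct {k : Type u} [Field k] {n : ℕ} {A : Fin n → Type u} [∀ i, CommRing (A i)]
    [∀ i, Algebra k (A i)] {B : Type u} [CommRing B] [Algebra k B] (j : ∀ i, A i →ₐ[k] B) :
    Prop :=
  ∀ (S : Type u) [CommRing S] [Algebra k S] (f : ∀ i, A i →ₐ[k] S),
    ∃! g : B →ₐ[k] S, ∀ i a, g (j i a) = f i a

/-- The coordinate ring `k[H_0 / H_j, ..., H_N / H_j]` of the chart `H_j ≠ 0` of the projective
variety over `k` with the homogeneous coordinates `H_0, ..., H_N` in a field `K`. -/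
def chart (k : Type u) {K : Type u} [Field k] [Field K] [Algebra k K] {N : ℕ}
    (H : Fin (N + 1) → K) (j : Fin (N + 1)) : Subalgebra k K :=
  Algebra.adjoin k (Set.range fun l => H l / H j)

section graded

variable {k A : Type u} [Field k] [CommRing A] [Algebra k A] {Λ : Type} [AddCommGroup Λ]
  [DecidableEq Λ]

/-- The subgroup of `Λ` generated by the degrees of the nonzero homogeneous elements of a
`Λ`-graded algebra, the character group of the image of the group scheme `Spec k[Λ]` in the
automorphism group scheme of the algebra. -/
def degreeGroup (𝒜 : Λ → Submodule k A) : AddSubgroup Λ :=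
  AddSubgroup.closure {x | ∃ a ∈ 𝒜 x, a ≠ 0}

/-- The part of degree zero of a graded algebra, the algebra of invariants of the group scheme
`Spec k[Λ]`. -/
def degreeZero (𝒜 : Λ → Submodule k A) [GradedAlgebra 𝒜] : Subalgebra k A where
  carrier := 𝒜 0
  mul_mem' := fun ha hb => by
    have h := SetLike.mul_mem_graded ha hb
    rwa [add_zero] at h
  add_mem' := fun ha hb => Submodule.add_mem _ ha hb
  algebraMap_mem' := fun c => by
    rw [Algebra.algebraMap_eq_smul_one]
    exact Submodule.smul_mem _ _ (SetLike.one_mem_graded 𝒜)

/-- The structure morphism of the quotient of `Spec A` by the group scheme `Spec k[Λ]`, the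
spectrum of the part of degree zero. -/
noncomputable def quotStr (𝒜 : Λ → Submodule k A) [GradedAlgebra 𝒜] :
    Spec (CommRingCat.of (degreeZero 𝒜)) ⟶ Spec (CommRingCat.of k) :=
  Spec.map (CommRingCat.ofHom (algebraMap k (degreeZero 𝒜)))

/-- The quotient of the affine variety `Spec A` by the group scheme `Spec k[Λ]`, that is, the
spectrum of the part of degree zero, is birational to a smooth projective variety. Here `K` is the
fraction field of `A`, the projective variety is given by homogeneous coordinates
`H_0, ..., H_N` in `K`: its charts are smooth over `k`, and its function field, the field of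
quotients of elements of a chart, consists of the quotients of elements of `A` of degree zero. For
surfaces over perfect fields this condition is always satisfied by the resolution of
singularities of surfaces. -/
def HasSmoothProjectiveQuotient (K : Type u) [Field K] [Algebra k K] [Algebra A K]
    (𝒜 : Λ → Submodule k A) : Prop :=
  ∃ (N : ℕ) (H : Fin (N + 1) → K), (∀ l, H l ≠ 0) ∧
    (∀ j, Algebra.Smooth k (chart k H j)) ∧
    ∀ j (y : K), (∃ a ∈ 𝒜 0, ∃ b ∈ 𝒜 0, b ≠ 0 ∧ y = algebraMap A K a / algebraMap A K b) ↔
      ∃ u ∈ chart k H j, ∃ v ∈ chart k H j, v ≠ 0 ∧ y = u / v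

end graded

/-- Let `p` be a prime, `k` a perfect field of characteristic `p`, `Λ` a finite abelian group and
`D = Spec k[Λ]` the corresponding diagonalizable group scheme. Let `Spec (A i)`, `i < n`, be
affine surfaces over `k` with an action of `D`: the `A i` are `Λ`-graded domains of finite type and
of dimension 2 over `k`. Suppose that the order of the subgroup of `Λ` generated by the degrees
of the homogeneous elements of `A i` is not divisible by `p ^ 2`, and that the quotient of
`Spec (A i)` by `D` is birational to a smooth projective surface (this is always the case). Let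
`Spec B` be the product of the surfaces over `k`, assumed to be integral, with the diagonal action
of `D`: the grading `ℬ` of `B` such that the homomorphisms `A i → B` preserve the degrees. Then
the quotient of `Spec B` by `D` is a variety which has a resolution of singularities. -/
theorem result (p : ℕ) [Fact p.Prime] (k : Type u) [Field k] [CharP k p] [PerfectField k]
    (Λ : Type) [AddCommGroup Λ] [Finite Λ] [DecidableEq Λ] (n : ℕ)
    (A K : Fin n → Type u) [∀ i, CommRing (A i)] [∀ i, IsDomain (A i)] [∀ i, Algebra k (A i)]
    [∀ i, Algebra.FiniteType k (A i)] (hA : ∀ i, Algebra.trdeg k (A i) = 2) [∀ i, Field (K i)]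
    [∀ i, Algebra k (K i)] [∀ i, Algebra (A i) (K i)] [∀ i, IsScalarTower k (A i) (K i)]
    [∀ i, IsFractionRing (A i) (K i)] (𝒜 : ∀ i, Λ → Submodule k (A i))
    [∀ i, GradedAlgebra (𝒜 i)] (h𝒜 : ∀ i, ¬ p ^ 2 ∣ Nat.card (degreeGroup (𝒜 i)))
    (hq : ∀ i, HasSmoothProjectiveQuotient (K i) (𝒜 i))
    (B : Type u) [CommRing B] [IsDomain B] [Algebra k B] (j : ∀ i, A i →ₐ[k] B)
    (hj : IsTensorProduct j) (ℬ : Λ → Submodule k B) [GradedAlgebra ℬ]
    (hℬ : ∀ i x, ∀ a ∈ 𝒜 i x, j i a ∈ ℬ x) :
    IsResolvableVariety (quotStr ℬ) := by
  have hj' : Pool.Agent.W558.WT.IsTP j := by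
    refine ⟨fun S _ _ f => (hj S f).exists, fun S _ _ g g' h => ?_⟩
    exact (hj S fun i => g.comp (j i)).unique (fun i a => rfl) fun i a => (h i a).symm
  have hcl : ∀ i, Pool.Agent.TH214.Q.suppG (𝒜 i) = degreeGroup (𝒜 i) := by
    intro i
    apply le_antisymm
    · intro x hx
      exact AddSubgroup.subset_closure hx
    · unfold degreeGroup
      rw [AddSubgroup.closure_le]
      intro x hx
      exact hx
  have hm' : ∀ i, Algebra.trdeg k (Pool.Agent.TH214.Q.F0 (𝒜 i) (K i)) = 2 ∧
      Pool.Agent.W558.HasModel k (Pool.Agent.TH214.Q.F0 (𝒜 i) (K i)) := by
    intro i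
    obtain ⟨N, H, h1, h2, h3⟩ := hq i
    exact Pool.Agent.TH214.Q.modGr (𝒜 i) (K i) (hA i) N H h1 h2 h3
  obtain ⟨h1, h2⟩ := Pool.Agent.TH214.Q.quotGr Pool.Agent.W558.wt_art p k n A K B j hj' 𝒜 ℬ hℬ
    (fun i => by rw [hcl i]; exact h𝒜 i) (fun i => (hm' i).1) (fun i => (hm' i).2)
    (degreeZero ℬ) (fun b => Iff.rfl)
  exact isResolvableVariety_spec h2

end Pool.Agent.Results.MP_b525bf_ag.DiagonalizableQuotients
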