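import Pool.Agent.TH188.VT.Main
import Pool.Agent.TH188.VQ.Res

/-!
MP_b525bf_ag: resolution of singularities of purely inseparable covers of exponent one of products
of surfaces over a perfect field of characteristic `p`, generated by `p`-th roots of linear
combinations of products of functions on the surfaces, or of products of powers of such functions.
Examples: the varieties in affine space of dimension `2 n + r` given by `r` equations
`w_j ^ p = c_j1 * f_1 (x_1, y_1) + ... + c_jn * f_n (x_n, y_n)`, or by
`w_j ^ p = f_1 (x_1, y_1) ^ a_j1 * ... * f_n (x_n, y_n) ^ a_jn`, the hypersurfaces
`w ^ p = f_1 (x_1, y_1) * f_2 (x_2, y_2) + f_3 (x_3, y_3) * f_4 (x_4, y_4)`. All even dimensions.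

The proof: (1) Giraud's normal form of a function `f` on a surface,
`f = a ^ p + x ^ n * h` with nowhere vanishing logarithmic form `d (x ^ n * h) / x ^ n`
(starting library); (2) NEW: the normal form of products. Let `f i = u i * x ^ (ν i)`, `u i` a
unit, be functions in joint normal form `f i = a i ^ p + x ^ (n i) * h i`. On a toroidal blowup on
which the monomials `x ^ (n i - ν i)` are regular and pairwise comparable, and locally
`E = n i - ν i` is minimal, the product of the `f i`, `i ∈ S`, is
`(∏ i, a i) ^ p + x ^ (V + E) * g`, where `V` is the sum of the `ν i`, and the logarithmic form of
`x ^ (V + E) * g` is a combination of those of the `x ^ (n i) * h i` in which the coefficient of a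
form with minimal `n i - ν i` is a unit. This uses that the logarithmic form of `x ^ ν * c` vanishes
if this function is a `p`-th power. (3) NEW: the normal form is preserved in towers of `p`-th roots:
for the coefficient vectors of the functions which have not yet been adjoined one chooses
representatives in echelon form with respect to the order of the monomials `x ^ n` on a toroidal
blowup; the logarithmic tangent vectors which kill the adjoined functions do not kill the next one;
(4) NEW: these logarithmic tangent vectors can be lifted to the blowups which make the cover
`y ^ p = x ^ c * h` smooth (the blowups are those of the starting library).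

helper188; jobs: helpers 715, 971, 558, 90, 153; built on the library of the starting files (team of
helper558: helpers 578, 349, 191, 85, 64, 924, 52, 216, 177, 462, 932, 411, 499, 337, 372, 193, 150,
978, 930, 327, 376, 32, 902, 417, 135 and others).
-/

set_option autoImplicit false

open AlgebraicGeometry CategoryTheory Pool.Agent.W558 Pool.Agent.TH188.VT

universe u

namespace Pool.Agent.Results.MP_b525bf_ag.InseparableTowers

/-- Let `k` be a perfect field of characteristic `p`, and let the field extension `K` of `k` be
generated by subfields `E 1, ..., E n` and elements `w 1, ..., w r`. The `E i` are linearly
disjoint over `k` and function fields of smooth projective surfaces over `k`, or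
`E i = k(x i 0, x i 1)` for algebraically independent elements `x i j` of `K`. Either the
elements `w j ^ p` are linear combinations over `k` of products `g t 1 * ... * g t n` of
elements `g t i` of the `E i` such that for every `i` at most one of the `g t i` is not a `p`-th
power in `E i`; or the elements `w j ^ p` are products of powers of elements `g i ≠ 0` of the `E i`.
Let `A` be a finitely generated `k`-algebra with fraction field `K` which is integral over the
subalgebra generated by finitely many elements each of which is a product of elements of the `E i`;
for example over the polynomial ring `k[x]` in the case `E i = k(x i 0, x i 1)`. Then the variety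
`Spec A` has a resolution of singularities. -/
theorem result (p : ℕ) [Fact p.Prime] (k K : Type u) [Field k] [PerfectField k] [CharP k p]
    [Field K] [Algebra k K] (n r : ℕ) (E : Fin n → IntermediateField k K) (w : Fin r → K)
    (h : IsInseparableTower E p w)
    (A : Type u) [CommRing A] [IsDomain A] [Algebra k A] [Algebra.FiniteType k A] [Algebra A K]
    [IsScalarTower k A K] [IsFractionRing A K] (S : Finset A)
    (hS : ∀ a ∈ S, ∃ s : ∀ i, E i, algebraMap A K a = ∏ i, (s i : K))
    (hA : ∀ a : A, IsIntegral (Algebra.adjoin k (S : Set A)) a) :
    IsResolvableVariety (X := Spec (CommRingCat.of A))
      (Spec.map (CommRingCat.ofHom (algebraMap k A))) := by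
  obtain ⟨T, I, hT, hI, hM⟩ := exists_charts h A S hS hA
  exact Pool.Agent.TH188.VQ.HasCharts.resolvable
    ⟨K, _, _, _, inferInstance, inferInstance, T, I, hT, hI, hM⟩

end Pool.Agent.Results.MP_b525bf_ag.InseparableTowers
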