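import Pool.Agent.TH214.SD.Main

/-!
MP_b525bf_ag: resolution of singularities, in all dimensions, of the varieties over a perfect field
of characteristic `p` whose function field is an elementary abelian extension of exponent `p` of a
field `K_0` of the following kind.

`K_0` is generated by linearly disjoint function fields `E 1, ..., E m` of arbitrary surfaces over
`k` (given with smooth projective models) and by nonzero elements `y 1, ..., y n` which satisfy
equations `G i (u, y) = 0`, where `u 1, ..., u h` are products of arbitrary elements of the `E i`
and the `G i` are Laurent polynomials which are schön with respect to `y` (all initial
degenerations of the equations are smooth over the torus of the `u`); for example `K_0` is the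
function field of the product of surfaces, curves and a schön subvariety of a torus, such as the
complement of an arrangement of hyperplanes, or of a tame Kummer cover `y j ^ d_j = u j` of the
product of the surfaces.

The extension is given by Artin-Schreier equations `w ^ p - w = g` whose right-hand sides are
integral linear combinations of arbitrary functions `f i ∈ E i`, and of Laurent polynomials
`F t (u, y)` whose initial forms have differentials, relative to the torus of the `u` and the `G i`, which
are linearly independent everywhere.

The proof: (1) the surfaces are blown up in points until the functions `f i` have a normal form
`a ^ p - a + x ^ n * h` such that the logarithmic form of `x ^ n * h` has no zeros on its poles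
and all other functions are locally monomials; (2) on a toroidal blowup of the product of the
surfaces and of a compactified torus adapted to the Newton polytopes the closure of the
subvariety is smooth and has normal crossings with the boundary: the strict transforms of the
equations have independent differentials in directions tangent to the strata of the boundary,
and generate the ideal of the closure by a dimension count and Nakayama's lemma; (3) corrections by
logarithmic vectors of the torus tangent to the subvariety show that the logarithmic
differentials of the polar parts of all the summands are linearly independent at every point
of the closure on their poles; (4) this is the normal form from which the starting library (the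
proof of MP_19ffc6_ag.SurfaceProductQuotients) produces smooth models of the tower of
Artin-Schreier extensions.

helper214; built on the library of the starting files (helpers 558, 33, 369, 405, 368, 356, 29,
230, 32, 906, 191, 410, 435, 376, 382, 348, 135, 991, 366, 74, 305, 417, 440, 409, 174, 290, 392,
352, 565, 335, 924, 337, 347, 479, 959, 727, 202 and others) and on the files of
helper188 for towers of inseparable extensions and for models of surfaces (helpers 188, 715, 971,
558, 90, 153).
-/

set_option autoImplicit false

open AlgebraicGeometry CategoryTheory Pool.Agent.TH214.SD Pool.Agent.W558

universe u

namespace Pool.Agent.Results.MP_b525bf_ag.SchonSurfaceTwisted

/-- Let `k` be a perfect field of characteristic `p`. Let `E 1, ..., E m` be linearly disjoint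
function fields of smooth projective surfaces over `k` in the field extension `K` of `k` (or `E i =
k(x i 0, x i 1)` with algebraically independent `x i j`). Let `y 1, ..., y n ≠ 0` be elements of
`K` with `G i (u, y) = 0`, where the `u a ≠ 0` are products of elements of the `E i` and the
Laurent polynomials `G i` are schön equations of codimension at least `c` with respect to the
variables `Y`, and let `d = n - c` of the `y j` be algebraically independent over the field
generated by the `E i`. Suppose that `K` is generated by the `E i`, the `y j` and elements `w j`
such that the `w j ^ p - w j` are integral linear combinations of functions `f i ∈ E i` and of the
elements `F t (u, y)`, where the Laurent polynomials `F t` are strongly nondegenerate on the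
subscheme given by the `G i`. Let `A` be a finitely generated `k`-algebra with the fraction field
`K` which is integral over the subalgebra generated by finitely many elements each of which is a
product of elements of the `E i` and of powers of the `y j`. Then the variety `Spec A` has a
resolution of singularities. -/
theorem result (p : ℕ) [Fact p.Prime] (k K : Type u) [Field k] [PerfectField k] [CharP k p]
    [Field K] [Algebra k K] (m n h c d q r s : ℕ) (E : Fin m → IntermediateField k K)
    (u : Fin h → K) (y : Fin n → K) (G : Fin q → (Fin h ⊕ Fin n → ℤ) →₀ k) (ρ : Fin d → Fin n)
    (f : ∀ i, E i) (F : Fin s → (Fin h ⊕ Fin n → ℤ) →₀ k) (w : Fin r → K)
    (hK : IsWildCover E p c u y G ρ f F Set.univ w)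
    (A : Type u) [CommRing A] [IsDomain A] [Algebra k A] [Algebra.FiniteType k A] [Algebra A K]
    [IsScalarTower k A K] [IsFractionRing A K] (S : Finset A)
    (hS : ∀ a ∈ S, IsProduct E y (algebraMap A K a))
    (hA : ∀ a : A, IsIntegral (Algebra.adjoin k (S : Set A)) a) :
    IsResolvableVariety (X := Spec (CommRingCat.of A))
      (Spec.map (CommRingCat.ofHom (algebraMap k A))) :=
  resolvable (fun S _ v hv => wild_models hK S v hv) A S hS hA

end Pool.Agent.Results.MP_b525bf_ag.SchonSurfaceTwisted
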